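import Mathlib
import Pool.Agent.N804.LI.Stm

set_option autoImplicit false

/-! # Project LI: errors tending to zero do not matter -/

namespace Pool.Agent.N950.LIPert

open Filter Topology MeasureTheory
open Pool.Agent.N804.LI

theorem avg (D : ℝ → ℝ) (hD : Continuous D) (h0 : Tendsto D atTop (𝓝 0)) :
    Tendsto (fun Y : ℝ => (1 / Y) * ∫ y in (0 : ℝ)..Y, D y) atTop (𝓝 0) := by
  rw [Metric.tendsto_atTop]
  intro δ hδ
  obtain ⟨Y1, hY1⟩ := Metric.tendsto_atTop.1 h0 (δ / 2) (half_pos hδ)
  set Y0 := max Y1 0 with hY0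
  have hY00 : 0 ≤ Y0 := le_max_right _ _
  have hDY : ∀ y, Y0 ≤ y → ‖D y‖ ≤ δ / 2 := by
    intro y hy
    have := hY1 y ((le_max_left _ _).trans hy)
    rw [dist_zero_right] at this
    exact this.le
  set I := |∫ y in (0 : ℝ)..Y0, D y| with hI
  have hI0 : 0 ≤ I := abs_nonneg _
  refine ⟨max (Y0 + 1) (2 * I / δ + 1), fun Y hY => ?_⟩
  have hYa : Y0 + 1 ≤ Y := (le_max_left _ _).trans hY
  have hYb : 2 * I / δ + 1 ≤ Y := (le_max_right _ _).trans hY
  have hYpos : 0 < Y := by linarith
  rw [dist_zero_right, norm_mul, Real.norm_of_nonneg (by positivity)]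
  have e1 : ∫ y in (0 : ℝ)..Y, D y = (∫ y in (0 : ℝ)..Y0, D y) + ∫ y in Y0..Y, D y :=
    (intervalIntegral.integral_add_adjacent_intervals (hD.intervalIntegrable _ _)
      (hD.intervalIntegrable _ _)).symm
  have e2 : ‖∫ y in Y0..Y, D y‖ ≤ δ / 2 * |Y - Y0| := by
    refine intervalIntegral.norm_integral_le_of_norm_le_const fun y hy => hDY y ?_
    rw [Set.uIoc_of_le (by linarith)] at hy
    exact hy.1.le
  rw [abs_of_nonneg (by linarith)] at e2
  have e3 : ‖∫ y in (0 : ℝ)..Y, D y‖ ≤ I + δ / 2 * Y := by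
    rw [e1]
    refine (norm_add_le _ _).trans (add_le_add le_rfl (e2.trans ?_))
    nlinarith
  have e4 : 2 * I < δ * Y := by
    have : 2 * I / δ < Y := by linarith
    rw [div_lt_iff₀ hδ] at this
    linarith
  rw [one_div, inv_mul_lt_iff₀ hYpos]
  nlinarith

theorem main : S_PERT := by
  intro P F κ E B hP hF hB hPF hE
  have hc1 : Continuous fun y => Real.exp (κ * P y) := by fun_prop
  have hc2 : Continuous fun y => Real.exp (κ * F y) := by fun_prop
  have hD : Tendsto (fun y => Real.exp (κ * P y) - Real.exp (κ * F y)) atTop (𝓝 0) := by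
    have h1 : Tendsto (fun y => Real.exp (|κ| * B) * |Real.exp (κ * (P y - F y)) - 1|) atTop
        (𝓝 (Real.exp (|κ| * B) * |Real.exp (κ * 0) - 1|)) := by
      refine Tendsto.const_mul _ (Tendsto.abs ?_)
      refine Tendsto.sub_const ?_ _
      exact (Real.continuous_exp.tendsto _).comp (hPF.const_mul κ)
    have h2 : Real.exp (|κ| * B) * |Real.exp (κ * 0) - 1| = 0 := by simp
    rw [h2] at h1
    refine squeeze_zero_norm (fun y => ?_) h1
    have e1 : Real.exp (κ * P y) - Real.exp (κ * F y) =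
        Real.exp (κ * F y) * (Real.exp (κ * (P y - F y)) - 1) := by
      rw [mul_sub, ← Real.exp_add, mul_one]
      congr 2
      ring
    rw [e1, norm_mul, Real.norm_of_nonneg (Real.exp_pos _).le]
    refine mul_le_mul_of_nonneg_right ?_ (abs_nonneg _)
    refine Real.exp_le_exp.2 ((le_abs_self _).trans ?_)
    rw [abs_mul]
    exact mul_le_mul_of_nonneg_left (hB y) (abs_nonneg _)
  have h3 := (avg (fun y => Real.exp (κ * P y) - Real.exp (κ * F y)) (hc1.sub hc2) hD).add hE
  rw [zero_add] at h3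
  refine h3.congr fun Y => ?_
  unfold EM
  rw [intervalIntegral.integral_sub (hc1.intervalIntegrable _ _) (hc2.intervalIntegrable _ _)]
  ring

end Pool.Agent.N950.LIPert
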